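import Pool.Agent.ParityAC.Parity

/-! Alternating functions on subcubes. -/

namespace Pool.Agent.ParityAC

open Finset

variable {V : Type}

/-- `f` is an alternating function on the subcube of `ρ` -/
def InR (ρ : Rst V) (S q r : ℕ) (β : Bool) (f : (V → Bool) → Bool) : Prop :=
  ∃ g, InAlt S q r β g ∧ ∀ x, Ext ρ x → g x = f x

theorem InR.congr {ρ : Rst V} {S q r : ℕ} {β : Bool} {f f' : (V → Bool) → Bool}
    (h : InR ρ S q r β f) (hf : ∀ x, Ext ρ x → f x = f' x) : InR ρ S q r β f' := by
  obtain ⟨g, h1, h2⟩ := h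
  exact ⟨g, h1, fun x hx => (h2 x hx).trans (hf x hx)⟩

theorem InAlt.mono {S q q' : ℕ} (hq : q ≤ q') : ∀ {r : ℕ} {β : Bool} {f : (V → Bool) → Bool},
    InAlt S q r β f → InAlt S q' r β f := by
  intro r
  induction r with
  | zero =>
    rintro β f ⟨t, h1, h2⟩
    exact ⟨t, h1.trans hq, h2⟩
  | succ r ih =>
    rintro β f ⟨u, h1, h2⟩
    exact ⟨u, fun i => ih (h1 i), h2⟩

theorem InR.mono {ρ : Rst V} {S q q' r : ℕ} {β : Bool} {f : (V → Bool) → Bool}
    (h : InR ρ S q r β f) (hq : q ≤ q') : InR ρ S q' r β f := by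
  obtain ⟨g, h1, h2⟩ := h
  exact ⟨g, h1.mono hq, h2⟩

theorem InR.sub {ρ ρ' : Rst V} {S q r : ℕ} {β : Bool} {f : (V → Bool) → Bool}
    (h : InR ρ S q r β f) (hρ : ∀ x, Ext ρ' x → Ext ρ x) : InR ρ' S q r β f := by
  obtain ⟨g, h1, h2⟩ := h
  exact ⟨g, h1, fun x hx => h2 x (hρ x hx)⟩

theorem InR.of_small {ρ : Rst V} {S q : ℕ} {β : Bool} {f : (V → Bool) → Bool}
    (h : Small f ρ q) : InR ρ S q 0 β f := by
  obtain ⟨t, h1, h2⟩ := h
  exact ⟨fun x => t.eval x, ⟨t, h1, fun _ => rfl⟩, h2⟩

theorem gt_const {S : ℕ} (hS : 1 ≤ S) (β b : Bool) : gt β (fun _ : Fin S => b) = b := by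
  cases β
  · rw [Bool.eq_iff_iff, gt_false]
    constructor
    · rintro ⟨_, h⟩
      exact h
    · intro h
      exact ⟨⟨0, hS⟩, h⟩
  · rw [Bool.eq_iff_iff, gt_true]
    constructor
    · intro h
      exact h ⟨0, hS⟩
    · intro h _
      exact h

theorem InAlt.raise {S q r : ℕ} (hS : 1 ≤ S) {β : Bool} {f : (V → Bool) → Bool}
    (h : InAlt S q r (!β) f) : InAlt S q (r + 1) β f :=
  ⟨fun _ => f, fun _ => h, fun x => (gt_const hS β (f x)).symm⟩

theorem InR.raise {ρ : Rst V} {S q r : ℕ} (hS : 1 ≤ S) {β : Bool} {f : (V → Bool) → Bool}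
    (h : InR ρ S q r (!β) f) : InR ρ S q (r + 1) β f := by
  obtain ⟨g, h1, h2⟩ := h
  exact ⟨g, h1.raise hS, h2⟩

theorem InAlt.const {S : ℕ} (hS : 1 ≤ S) (q : ℕ) (b : Bool) : ∀ (r : ℕ) (β : Bool),
    InAlt S q r β (fun _ : V → Bool => b) := by
  intro r
  induction r with
  | zero => intro β; exact ⟨DT.leaf b, Nat.zero_le _, fun _ => rfl⟩
  | succ r ih => intro β; exact (ih (!β)).raise hS

theorem InR.const {ρ : Rst V} {S : ℕ} (hS : 1 ≤ S) (q : ℕ) (b : Bool) (r : ℕ) (β : Bool)
    {f : (V → Bool) → Bool} (hf : ∀ x, Ext ρ x → f x = b) : InR ρ S q r β f :=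
  ⟨_, InAlt.const hS q b r β, fun x hx => (hf x hx).symm⟩

theorem InAlt.ite {S q : ℕ} (v : V) : ∀ {r : ℕ} {β : Bool} {f0 f1 : (V → Bool) → Bool},
    InAlt S q r β f0 → InAlt S q r β f1 →
    InAlt S (q + 1) r β (fun x => if x v then f1 x else f0 x) := by
  intro r
  induction r with
  | zero =>
    rintro β f0 f1 ⟨t0, h01, h02⟩ ⟨t1, h11, h12⟩
    refine ⟨DT.node v t0 t1, ?_, ?_⟩
    · simp only [DT.depth]
      omega
    · intro x
      simp only [DT.eval, h02, h12]
  | succ r ih =>
    rintro β f0 f1 ⟨u0, h01, h02⟩ ⟨u1, h11, h12⟩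
    refine ⟨fun i x => if x v then u1 i x else u0 i x, fun i => ih (h01 i) (h11 i), ?_⟩
    intro x
    by_cases hx : x v
    · simp only [hx, if_true, h12]
    · simp only [hx, h02]
      rfl

variable [DecidableEq V]

theorem InR.split {ρ : Rst V} {S q r : ℕ} {β : Bool} {f : (V → Bool) → Bool} (v : V)
    (h : ∀ b, InR (Function.update ρ v (some b)) S q r β f) : InR ρ S (q + 1) r β f := by
  obtain ⟨g0, h01, h02⟩ := h false
  obtain ⟨g1, h11, h12⟩ := h true
  refine ⟨_, InAlt.ite v h01 h11, ?_⟩
  intro x hx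
  have key : ∀ b, x v = b → Ext (Function.update ρ v (some b)) x := by
    intro b hb w c hw
    by_cases hwv : w = v
    · subst hwv
      rw [Function.update_self] at hw
      simp only [Option.some.injEq] at hw
      rw [← hw]
      exact hb
    · rw [Function.update_of_ne hwv] at hw
      exact hx w c hw
  by_cases hxv : x v
  · simp only [hxv, if_true]
    exact h12 x (key true hxv)
  · simp only [hxv]
    exact h02 x (key false (by simpa using hxv))

theorem ext_update {ρ : Rst V} {v : V} (hv : ρ v = none) (b : Bool) {x : V → Bool}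
    (hx : Ext (Function.update ρ v (some b)) x) : Ext ρ x := by
  intro w c hw
  apply hx w c
  rw [Function.update_of_ne]
  · exact hw
  · rintro rfl
    rw [hv] at hw
    exact absurd hw (by simp)

/-- query the variables of a decision tree -/
theorem InR.query {S q r : ℕ} {β : Bool} {f : (V → Bool) → Bool} : ∀ (J : DT V) (ρ : Rst V),
    (∀ (ρ' : Rst V) (b : Bool), (∀ x, Ext ρ' x → Ext ρ x) →
      (∀ x, Ext ρ' x → J.eval x = b) → InR ρ' S q r β f) →
    InR ρ S (q + J.depth) r β f := by
  intro J
  induction J with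
  | leaf b =>
    intro ρ h
    exact h ρ b (fun _ hx => hx) (fun _ _ => rfl)
  | node v t0 t1 ih0 ih1 =>
    intro ρ h
    cases hv : ρ v with
    | none =>
      have hd : q + (DT.node v t0 t1).depth = (q + max t0.depth t1.depth) + 1 := by
        simp only [DT.depth]
        omega
      rw [hd]
      apply InR.split v
      intro b
      have hval : ∀ (ρ' : Rst V), (∀ x, Ext ρ' x → Ext (Function.update ρ v (some b)) x) →
          ∀ x, Ext ρ' x → x v = b := by
        intro ρ' hρ' x hx
        exact hρ' x hx v b (by rw [Function.update_self])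
      cases b with
      | false =>
        refine (ih0 _ ?_).mono (Nat.add_le_add_left (le_max_left _ _) _)
        intro ρ' c h1 h2
        apply h ρ' c (fun x hx => ext_update hv _ (h1 x hx))
        intro x hx
        simp only [DT.eval, hval ρ' h1 x hx]
        exact h2 x hx
      | true =>
        refine (ih1 _ ?_).mono (Nat.add_le_add_left (le_max_right _ _) _)
        intro ρ' c h1 h2
        apply h ρ' c (fun x hx => ext_update hv _ (h1 x hx))
        intro x hx
        simp only [DT.eval, hval ρ' h1 x hx]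
        exact h2 x hx
    | some b0 =>
      have hval : ∀ (ρ' : Rst V), (∀ x, Ext ρ' x → Ext ρ x) →
          ∀ x, Ext ρ' x → x v = b0 := fun ρ' hρ' x hx => hρ' x hx v b0 hv
      cases b0 with
      | false =>
        refine (ih0 ρ ?_).mono (by simp only [DT.depth]; omega)
        intro ρ' c h1 h2
        apply h ρ' c h1
        intro x hx
        simp only [DT.eval, hval ρ' h1 x hx]
        exact h2 x hx
      | true =>
        refine (ih1 ρ ?_).mono (by simp only [DT.depth]; omega)
        intro ρ' c h1 h2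
        apply h ρ' c h1
        intro x hx
        simp only [DT.eval, hval ρ' h1 x hx]
        exact h2 x hx

/-- query the variables in a list -/
theorem InR.queryL {S q r : ℕ} {β : Bool} {f : (V → Bool) → Bool} : ∀ (A : List V) (ρ : Rst V),
    (∀ (ρ' : Rst V), (∀ x, Ext ρ' x → Ext ρ x) →
      (∀ v ∈ A, ∃ b, ∀ x, Ext ρ' x → x v = b) → InR ρ' S q r β f) →
    InR ρ S (q + A.length) r β f := by
  intro A
  induction A with
  | nil =>
    intro ρ h
    exact h ρ (fun _ hx => hx) (by simp)
  | cons v A ih =>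
    intro ρ h
    have h1 := InR.query (S := S) (q := q + A.length) (r := r) (β := β) (f := f)
      (DT.node v (DT.leaf false) (DT.leaf true)) ρ ?_
    · refine h1.mono ?_
      simp only [DT.depth, List.length_cons]
      omega
    · intro ρ' b h2 h3
      apply ih
      intro ρ'' h4 h5
      apply h ρ'' (fun x hx => h2 x (h4 x hx))
      intro w hw
      rcases List.mem_cons.1 hw with rfl | hw
      · refine ⟨b, ?_⟩
        intro x hx
        have := h3 x (h4 x hx)
        simp only [DT.eval] at this
        rw [← this]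
        cases x w <;> rfl
      · exact h5 w hw

/-- query several decision trees -/
theorem InR.queryT {S q r d : ℕ} {β : Bool} {f : (V → Bool) → Bool} :
    ∀ (Js : List (DT V)) (ρ : Rst V), (∀ J ∈ Js, J.depth ≤ d) →
    (∀ (ρ' : Rst V), (∀ x, Ext ρ' x → Ext ρ x) →
      (∀ J ∈ Js, ∃ b, ∀ x, Ext ρ' x → J.eval x = b) → InR ρ' S q r β f) →
    InR ρ S (q + Js.length * d) r β f := by
  intro Js
  induction Js with
  | nil =>
    intro ρ _ h
    simpa using h ρ (fun _ hx => hx) (by simp)
  | cons J Js ih =>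
    intro ρ hd h
    have h1 := InR.query (S := S) (q := q + Js.length * d) (r := r) (β := β) (f := f) J ρ ?_
    · refine h1.mono ?_
      have := hd J (by simp)
      have h3 : (Js.length + 1) * d = Js.length * d + d := by ring
      simp only [List.length_cons]
      omega
    · intro ρ' b h2 h3
      apply ih _ (fun J hJ => hd J (by simp [hJ]))
      intro ρ'' h4 h5
      apply h ρ'' (fun x hx => h2 x (h4 x hx))
      intro K hK
      rcases List.mem_cons.1 hK with rfl | hK
      · exact ⟨b, fun x hx => h3 x (h4 x hx)⟩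
      · exact h5 K hK

omit [DecidableEq V] in
/-- a gate with arbitrary index type -/
theorem InR.gate {ρ : Rst V} {S q r : ℕ} (hS : 1 ≤ S) {β : Bool} {f : (V → Bool) → Bool}
    {ι : Type} [Fintype ι] (hι : Fintype.card ι ≤ S) (u : ι → (V → Bool) → Bool)
    (hu : ∀ i, InR ρ S q r (!β) (u i))
    (hf : ∀ x, Ext ρ x → (f x = true ↔ if β then ∀ i, u i x = true else ∃ i, u i x = true)) :
    InR ρ S q (r + 1) β f := by
  rcases isEmpty_or_nonempty ι with hE | hN
  · refine InR.const hS q β (r + 1) β ?_
    intro x hx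
    have := hf x hx
    cases β
    · simp only [Bool.false_eq_true, if_false] at this
      rw [Bool.eq_false_iff]
      intro h
      obtain ⟨i, _⟩ := this.1 h
      exact hE.false i
    · simp only [if_true] at this
      exact this.2 (fun i => (hE.false i).elim)
  · choose g hg1 hg2 using hu
    obtain ⟨φ, hφ⟩ : ∃ φ : Fin S → ι, Function.Surjective φ := by
      have e : ι ≃ Fin (Fintype.card ι) := Fintype.equivFin ι
      have hpos : 0 < Fintype.card ι := Fintype.card_pos
      refine ⟨fun i => e.symm ⟨min i.1 (Fintype.card ι - 1), by omega⟩, ?_⟩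
      intro j
      refine ⟨⟨(e j).1, lt_of_lt_of_le (e j).2 hι⟩, ?_⟩
      apply e.injective
      rw [Equiv.apply_symm_apply]
      apply Fin.ext
      show min (e j).1 (Fintype.card ι - 1) = (e j).1
      have := (e j).2
      omega
    refine ⟨fun x => gt β fun i => g (φ i) x, ⟨fun i => g (φ i), fun i => hg1 _, fun x => rfl⟩, ?_⟩
    intro x hx
    have h1 := hf x hx
    show gt β (fun i => g (φ i) x) = f x
    cases β
    · simp only [Bool.false_eq_true, if_false] at h1
      rw [Bool.eq_iff_iff, gt_false, h1]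
      constructor
      · rintro ⟨i, hi⟩
        exact ⟨φ i, by rw [← hg2 _ x hx]; exact hi⟩
      · rintro ⟨i, hi⟩
        obtain ⟨j, rfl⟩ := hφ i
        exact ⟨j, by show g (φ j) x = true; rw [hg2 _ x hx]; exact hi⟩
    · simp only [if_true] at h1
      rw [Bool.eq_iff_iff, gt_true, h1]
      constructor
      · intro h i
        obtain ⟨j, rfl⟩ := hφ i
        rw [← hg2 _ x hx]
        exact h j
      · intro h j
        show g (φ j) x = true
        rw [hg2 _ x hx]
        exact h _

omit [DecidableEq V] in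
theorem ext_none (x : V → Bool) : Ext (fun _ => none : Rst V) x := by
  intro v b h
  simp at h

omit [DecidableEq V] in
theorem InR.toAlt {S q r : ℕ} {β : Bool} {f : (V → Bool) → Bool}
    (h : InR (fun _ => none) S q r β f) : InAlt S q r β f := by
  obtain ⟨g, h1, h2⟩ := h
  have : g = f := funext fun x => h2 x (ext_none x)
  rw [← this]
  exact h1

end Pool.Agent.ParityAC
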