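import Pool.Agent.ParityAC.Switch

/-! The switching lemma for families, and the lower bound for parity. -/

namespace Pool.Agent.ParityAC

open Finset

section count

variable {V : Type} [Fintype V] [DecidableEq V]

/-- the free variables -/
def stars (ρ : Rst V) : Finset V := univ.filter fun v => ρ v = none

omit [DecidableEq V] in
theorem mem_stars {ρ : Rst V} {v : V} : v ∈ stars ρ ↔ ρ v = none := by
  simp [stars]

/-- the restrictions with exactly `l` free variables -/
def RS (V : Type) [Fintype V] [DecidableEq V] (l : ℕ) : Finset (Rst V) :=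
  univ.filter fun ρ => (stars ρ).card = l

theorem mem_RS {l : ℕ} {ρ : Rst V} : ρ ∈ RS V l ↔ (stars ρ).card = l := by
  simp [RS]

/-- one step -/
theorem RS_step (k l : ℕ) (hl : 1 ≤ l) (hm : (16 * k + 1) * l ≤ Fintype.card V) :
    (RS V (l - 1)).card * (8 * k) ≤ (RS V l).card := by
  classical
  let r : Rst V → Rst V → Prop := fun ρ' ρ => ∃ v, ρ' v ≠ none ∧ ρ = Function.update ρ' v none
  have h1 : ∀ a ∈ RS V (l - 1), 16 * k * l ≤ ((RS V l).bipartiteAbove r a).card := by
    intro a ha
    rw [mem_RS] at ha
    have hinj : Set.InjOn (fun v => Function.update a v none) ((stars a)ᶜ : Finset V) := by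
      intro v hv w hw hvw
      by_contra hne
      have h2 := congrFun hvw v
      simp only [Function.update_self] at h2
      rw [Function.update_of_ne hne] at h2
      simp only [Finset.coe_compl, Set.mem_compl_iff, Finset.mem_coe, mem_stars] at hv
      exact hv h2.symm
    have hsub : ((stars a)ᶜ).image (fun v => Function.update a v none) ⊆
        (RS V l).bipartiteAbove r a := by
      intro ρ hρ
      obtain ⟨v, hv, rfl⟩ := Finset.mem_image.1 hρ
      rw [Finset.mem_compl, mem_stars] at hv
      rw [Finset.mem_bipartiteAbove]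
      refine ⟨?_, v, hv, rfl⟩
      rw [mem_RS]
      have : stars (Function.update a v none) = insert v (stars a) := by
        ext w
        rw [mem_stars, Finset.mem_insert, mem_stars]
        by_cases hw : w = v
        · subst hw
          simp
        · rw [Function.update_of_ne hw]
          simp [hw]
      rw [this, Finset.card_insert_of_notMem (by rw [mem_stars]; exact hv), ha]
      omega
    have h3 := Finset.card_le_card hsub
    rw [Finset.card_image_of_injOn hinj, Finset.card_compl, ha] at h3
    refine le_trans ?_ h3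
    have : (16 * k + 1) * l = 16 * k * l + l := by ring
    omega
  have h2 : ∀ b ∈ RS V l, ((RS V (l - 1)).bipartiteBelow r b).card ≤ 2 * l := by
    intro b hb
    rw [mem_RS] at hb
    have hsub : (RS V (l - 1)).bipartiteBelow r b ⊆
        ((stars b) ×ˢ (univ : Finset Bool)).image
          (fun p => Function.update b p.1 (some p.2)) := by
      intro ρ hρ
      rw [Finset.mem_bipartiteBelow] at hρ
      obtain ⟨_, v, hv, hb2⟩ := hρ
      obtain ⟨c, hc⟩ := Option.ne_none_iff_exists'.1 hv
      refine Finset.mem_image.2 ⟨(v, c), ?_, ?_⟩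
      · rw [Finset.mem_product]
        refine ⟨?_, Finset.mem_univ _⟩
        rw [mem_stars, hb2]
        simp
      · funext w
        show Function.update b v (some c) w = ρ w
        rw [hb2]
        by_cases hw : w = v
        · subst hw
          simp [hc]
        · rw [Function.update_of_ne hw, Function.update_of_ne hw]
    refine (Finset.card_le_card hsub).trans (Finset.card_image_le.trans ?_)
    rw [Finset.card_product, hb, Finset.card_univ, Fintype.card_bool]
    omega
  have h3 := Finset.card_mul_le_card_mul r h1 h2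
  have h4 : (RS V (l - 1)).card * (8 * k) * (2 * l) ≤ (RS V l).card * (2 * l) := by
    calc (RS V (l - 1)).card * (8 * k) * (2 * l) = (RS V (l - 1)).card * (16 * k * l) := by ring
      _ ≤ _ := h3
  exact Nat.le_of_mul_le_mul_right h4 (by omega)

theorem RS_pow (k : ℕ) : ∀ (s l : ℕ), s ≤ l → (16 * k + 1) * l ≤ Fintype.card V →
    (RS V (l - s)).card * (8 * k) ^ s ≤ (RS V l).card := by
  intro s
  induction s with
  | zero => intro l _ _; simp
  | succ s ih =>
    intro l hs hm
    have h1 := ih (l - 1) (by omega) (le_trans (Nat.mul_le_mul_left _ (by omega)) hm)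
    have h2 := RS_step k l (by omega) hm
    have h3 : l - (s + 1) = l - 1 - s := by omega
    rw [h3, pow_succ]
    calc (RS V (l - 1 - s)).card * ((8 * k) ^ s * (8 * k))
        = (RS V (l - 1 - s)).card * (8 * k) ^ s * (8 * k) := by ring
      _ ≤ (RS V (l - 1)).card * (8 * k) := Nat.mul_le_mul_right _ h1
      _ ≤ _ := h2

/-- unset the variables in `A` -/
def unset (ρ : Rst V) (A : Finset V) : Rst V := fun v => if v ∈ A then none else ρ v

/-- the codes -/
def codes (k s : ℕ) : Finset (List (ℕ × Bool × Bool)) :=
  (univ : Finset (Fin s → Fin k × Bool × Bool)).image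
    fun g => List.ofFn fun i => (((g i).1 : ℕ), (g i).2.1, (g i).2.2)

theorem codes_card (k s : ℕ) : (codes k s).card ≤ (4 * k) ^ s := by
  refine Finset.card_image_le.trans ?_
  rw [Finset.card_univ, Fintype.card_fun, Fintype.card_prod, Fintype.card_prod, Fintype.card_bool,
    Fintype.card_fin, Fintype.card_fin]
  apply le_of_eq
  congr 1
  ring

theorem mem_codes {k s : ℕ} {L : List (ℕ × Bool × Bool)} (h1 : L.length = s)
    (h2 : ∀ e ∈ L, e.1 < k) : L ∈ codes k s := by
  subst h1
  refine Finset.mem_image.2 ⟨fun i => (⟨(L.get i).1, h2 _ (List.get_mem L i)⟩, (L.get i).2.1,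
    (L.get i).2.2), Finset.mem_univ _, ?_⟩
  apply List.ext_get
  · simp
  · intro n h3 h4
    simp

/-- the number of bad restrictions for one DNF -/
theorem bad_card (F : List (Term V)) (k s l : ℕ) (hk : ∀ C ∈ F, C.1.length ≤ k) (hs : 1 ≤ s)
    (hm : (16 * k + 1) * l ≤ Fintype.card V) (B : Finset (Rst V))
    (hB : ∀ ρ ∈ B, ρ ∈ RS V l ∧ ¬ Small (evalD F) ρ (s - 1)) :
    B.card * 2 ^ s ≤ (RS V l).card := by
  classical
  rcases B.eq_empty_or_nonempty with rfl | ⟨ρ0, hρ0⟩
  · simp
  have hsl : s ≤ l := by
    obtain ⟨L, A, σ, h1, h2, h3, h4, h5, h6⟩ := enc_exists F k hk s ρ0 hs (hB ρ0 hρ0).2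
    have h7 : A.toFinset ⊆ stars ρ0 := by
      intro v hv
      rw [mem_stars]
      exact h5 v (List.mem_toFinset.1 hv)
    have h8 := Finset.card_le_card h7
    rw [List.toFinset_card_of_nodup h3, h4, mem_RS.1 (hB ρ0 hρ0).1] at h8
    exact h8
  have hsub : B ⊆ ((codes k s) ×ˢ (RS V (l - s))).image
      (fun p => unset p.2 (dec F p.1 p.2 p.2)) := by
    intro ρ hρ
    obtain ⟨hρ1, hρ2⟩ := hB ρ hρ
    obtain ⟨L, A, σ, h1, h2, h3, h4, h5, h6⟩ := enc_exists F k hk s ρ hs hρ2
    refine Finset.mem_image.2 ⟨(L, setR ρ A σ), ?_, ?_⟩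
    · rw [Finset.mem_product]
      refine ⟨mem_codes h1 h2, ?_⟩
      show setR ρ A σ ∈ _
      rw [mem_RS]
      have h7 : stars (setR ρ A σ) = stars ρ \ A.toFinset := by
        ext v
        rw [mem_stars, Finset.mem_sdiff, mem_stars, List.mem_toFinset]
        by_cases hv : v ∈ A
        · simp [setR, hv]
        · simp [setR, hv]
      have h8 : A.toFinset ⊆ stars ρ := by
        intro v hv
        rw [mem_stars]
        exact h5 v (List.mem_toFinset.1 hv)
      rw [h7, Finset.card_sdiff_of_subset h8, mem_RS.1 hρ1, List.toFinset_card_of_nodup h3, h4]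
    · show unset (setR ρ A σ) (dec F L (setR ρ A σ) (setR ρ A σ)) = ρ
      rw [h6]
      funext v
      by_cases hv : v ∈ A
      · simp [unset, hv, h5 v hv]
      · simp [unset, setR, hv]
  have h1 := (Finset.card_le_card hsub).trans Finset.card_image_le
  rw [Finset.card_product] at h1
  have h2 : B.card ≤ (4 * k) ^ s * (RS V (l - s)).card :=
    h1.trans (Nat.mul_le_mul_right _ (codes_card k s))
  calc B.card * 2 ^ s ≤ (4 * k) ^ s * (RS V (l - s)).card * 2 ^ s := Nat.mul_le_mul_right _ h2
    _ = (RS V (l - s)).card * (8 * k) ^ s := by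
      have : (8 * k) ^ s = (4 * k) ^ s * 2 ^ s := by
        rw [← mul_pow]
        congr 1
        ring
      rw [this]
      ring
    _ ≤ _ := RS_pow k s l hsl hm

theorem RS_nonempty {l : ℕ} (hl : l ≤ Fintype.card V) : (RS V l).Nonempty := by
  classical
  obtain ⟨T, hT1, hT2⟩ := Finset.exists_subset_card_eq (s := (univ : Finset V)) (n := l)
    (by rw [Finset.card_univ]; exact hl)
  refine ⟨fun v => if v ∈ T then none else some true, ?_⟩
  rw [mem_RS, ← hT2]
  congr 1
  ext v
  rw [mem_stars]
  by_cases hv : v ∈ T <;> simp [hv]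

/-- the switching lemma for a family of DNFs -/
theorem switch_family {ι : Type} [Fintype ι] (F : ι → List (Term V)) (k s l : ℕ)
    (hk : ∀ i, ∀ C ∈ F i, C.1.length ≤ k) (hs : 1 ≤ s)
    (hm : (16 * k + 1) * l ≤ Fintype.card V) (hι : Fintype.card ι < 2 ^ s) :
    ∃ ρ ∈ RS V l, ∀ i, Small (evalD (F i)) ρ (s - 1) := by
  classical
  by_contra hcon
  push Not at hcon
  have hlm : l ≤ Fintype.card V := by
    refine le_trans ?_ hm
    have : (16 * k + 1) * l = 16 * k * l + l := by ring
    omega
  obtain ⟨ρ0, hρ0⟩ := RS_nonempty (V := V) hlm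
  let B : ι → Finset (Rst V) := fun i => (RS V l).filter fun ρ => ¬ Small (evalD (F i)) ρ (s - 1)
  have h1 : RS V l ⊆ (univ : Finset ι).biUnion B := by
    intro ρ hρ
    obtain ⟨i, hi⟩ := hcon ρ hρ
    exact Finset.mem_biUnion.2 ⟨i, Finset.mem_univ _, Finset.mem_filter.2 ⟨hρ, hi⟩⟩
  have h2 : ∀ i, (B i).card * 2 ^ s ≤ (RS V l).card := by
    intro i
    apply bad_card (F i) k s l (hk i) hs hm
    intro ρ hρ
    exact Finset.mem_filter.1 hρ
  have h3 : (RS V l).card ≤ ∑ i, (B i).card := (Finset.card_le_card h1).trans Finset.card_biUnion_le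
  have h4 : (RS V l).card * 2 ^ s ≤ Fintype.card ι * (RS V l).card := by
    calc (RS V l).card * 2 ^ s ≤ (∑ i, (B i).card) * 2 ^ s := Nat.mul_le_mul_right _ h3
      _ = ∑ i, (B i).card * 2 ^ s := by rw [Finset.sum_mul]
      _ ≤ ∑ _i : ι, (RS V l).card := Finset.sum_le_sum fun i _ => h2 i
      _ = _ := by simp
  have h5 : 0 < (RS V l).card := Finset.card_pos.2 ⟨ρ0, hρ0⟩
  rw [mul_comm] at h4
  exact absurd (Nat.le_of_mul_le_mul_right h4 h5) (by omega)

end count

section restrict

variable {V : Type}

/-- combine a restriction with an assignment of the free variables -/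
def comb (ρ : Rst V) (y : {v // ρ v = none} → Bool) : V → Bool := fun v =>
  if h : ρ v = none then y ⟨v, h⟩ else (ρ v).getD false

theorem comb_ext (ρ : Rst V) (y : {v // ρ v = none} → Bool) : Ext ρ (comb ρ y) := by
  intro v b hv
  have : ¬ (ρ v = none) := by rw [hv]; simp
  simp [comb, hv]

/-- restrict a tree -/
def DT.restr (ρ : Rst V) : DT V → DT {v // ρ v = none}
  | leaf b => leaf b
  | node v t0 t1 => if h : ρ v = none then DT.node ⟨v, h⟩ (t0.restr ρ) (t1.restr ρ)
      else if ρ v = some true then t1.restr ρ else t0.restr ρ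

theorem DT.restr_depth (ρ : Rst V) (t : DT V) : (t.restr ρ).depth ≤ t.depth := by
  induction t with
  | leaf b => exact le_refl _
  | node v t0 t1 h0 h1 =>
    simp only [DT.restr]
    split
    · simp only [DT.depth]
      omega
    · split
      · simp only [DT.depth]
        omega
      · simp only [DT.depth]
        omega

theorem DT.restr_eval (ρ : Rst V) (t : DT V) (y : {v // ρ v = none} → Bool) :
    (t.restr ρ).eval y = t.eval (comb ρ y) := by
  induction t with
  | leaf b => rfl
  | node v t0 t1 h0 h1 =>
    by_cases h : ρ v = none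
    · simp only [DT.restr, dif_pos h, DT.eval, h0, h1, comb]
    · obtain ⟨b, hb⟩ := Option.ne_none_iff_exists'.1 h
      have hc : comb ρ y v = b := comb_ext ρ y v b hb
      simp only [DT.restr, DT.eval, hc, hb]
      cases b
      · simp [h0]
      · simp [h1]

end restrict

/-- the value of a gate: `true` is AND -/
def gt {S : ℕ} (β : Bool) (u : Fin S → Bool) : Bool :=
  if β then decide (∀ i, u i = true) else decide (∃ i, u i = true)

/-- `r` levels of gates of fan-in `S` over decision trees of depth `q` -/
def InAlt {V : Type} (S q : ℕ) : ℕ → Bool → ((V → Bool) → Bool) → Prop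
  | 0, _, f => ∃ t : DT V, t.depth ≤ q ∧ ∀ x, t.eval x = f x
  | r + 1, β, f => ∃ u : Fin S → ((V → Bool) → Bool), (∀ i, InAlt S q r (!β) (u i)) ∧
      ∀ x, f x = gt β fun i => u i x

/-- flipping a variable flips the function -/
def Flip {V : Type} [DecidableEq V] (f : (V → Bool) → Bool) : Prop :=
  ∀ x v, f (Function.update x v (!x v)) = !f x

theorem gt_false {S : ℕ} (u : Fin S → Bool) : gt false u = true ↔ ∃ i, u i = true := by
  simp [gt]

theorem gt_true {S : ℕ} (u : Fin S → Bool) : gt true u = true ↔ ∀ i, u i = true := by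
  simp [gt]

theorem gt_neg {S : ℕ} (β : Bool) (u : Fin S → Bool) : (gt β fun i => !u i) = !(gt (!β) u) := by
  cases β
  · rw [Bool.eq_iff_iff, gt_false, Bool.not_eq_true', Bool.eq_false_iff]
    simp only [Bool.not_false, ne_eq, gt_true]
    push Not
    constructor
    · rintro ⟨i, hi⟩
      exact ⟨i, by cases h : u i <;> simp [h] at hi ⊢⟩
    · rintro ⟨i, hi⟩
      exact ⟨i, by cases h : u i <;> simp [h] at hi ⊢⟩
  · rw [Bool.eq_iff_iff, gt_true, Bool.not_eq_true', Bool.eq_false_iff]
    simp only [Bool.not_true, ne_eq, gt_false]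
    push Not
    constructor
    · intro h i
      have := h i
      cases hu : u i <;> simp [hu] at this ⊢
    · intro h i
      have := h i
      cases hu : u i <;> simp [hu] at this ⊢

variable {V : Type} [Fintype V] [DecidableEq V]

/-- the DNF of an OR of decision trees -/
noncomputable def dnf {S : ℕ} (t : Fin S → DT V) : List (Term V) := by
  classical
  exact ((univ : Finset (Fin S × (V → Bool))).filter
    (fun p => (t p.1).eval p.2 = true)).toList.map fun p => ((t p.1).path p.2, p.2)

theorem dnf_width {S q : ℕ} (t : Fin S → DT V) (h : ∀ i, (t i).depth ≤ q) :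
    ∀ C ∈ dnf t, C.1.length ≤ q := by
  classical
  intro C hC
  rw [dnf] at hC
  obtain ⟨p, hp, rfl⟩ := List.mem_map.1 hC
  exact (DT.path_length _ _).trans (h p.1)

theorem dnf_eval {S : ℕ} (t : Fin S → DT V) (x : V → Bool) :
    evalD (dnf t) x = gt false fun i => (t i).eval x := by
  classical
  rw [Bool.eq_iff_iff, evalD_iff, gt_false]
  constructor
  · rintro ⟨C, hC, hx⟩
    rw [dnf] at hC
    obtain ⟨p, hp, rfl⟩ := List.mem_map.1 hC
    rw [Finset.mem_toList, Finset.mem_filter] at hp
    refine ⟨p.1, ?_⟩
    rw [DT.eval_of_path p.2 x (t p.1) hx]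
    exact hp.2
  · rintro ⟨i, hi⟩
    refine ⟨((t i).path x, x), ?_, fun v _ => rfl⟩
    rw [dnf]
    refine List.mem_map.2 ⟨(i, x), ?_, rfl⟩
    rw [Finset.mem_toList, Finset.mem_filter]
    exact ⟨Finset.mem_univ _, hi⟩

/-- one round of switching -/
theorem alt_step (S q s l : ℕ) (hs : 1 ≤ s) (hm : (16 * q + 1) * l ≤ Fintype.card V) :
    ∀ (r : ℕ) (ι : Type) (_ : Fintype ι) (β : Bool) (f : ι → ((V → Bool) → Bool)),
      (∀ i, InAlt S q (r + 1) β (f i)) → Fintype.card ι * S ^ r < 2 ^ s →
      ∃ ρ ∈ RS V l, ∀ i, InAlt S (s - 1) r β (fun y : {v // ρ v = none} → Bool => f i (comb ρ y)) := by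
  intro r
  induction r with
  | zero =>
    intro ι _ β f hf hcard
    choose u hu1 hu2 using hf
    choose t ht1 ht2 using hu1
    let t' : ι → Fin S → DT V := fun i j => if β then (t i j).neg else t i j
    have ht'd : ∀ i j, (t' i j).depth ≤ q := by
      intro i j
      simp only [t']
      split
      · rw [DT.depth_neg]
        exact ht1 i j
      · exact ht1 i j
    obtain ⟨ρ, hρ1, hρ2⟩ := switch_family (fun i => dnf (t' i)) q s l
      (fun i => dnf_width _ (ht'd i)) hs hm (by simpa using hcard)
    refine ⟨ρ, hρ1, ?_⟩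
    intro i
    obtain ⟨T, hT1, hT2⟩ := hρ2 i
    have key : ∀ x, Ext ρ x → (if β then T.neg else T).eval x = f i x := by
      intro x hx
      have h1 := hT2 x hx
      rw [dnf_eval] at h1
      cases β
      · simp only [t'] at h1
        rw [hu2]
        simp only [Bool.false_eq_true, if_false] at h1 ⊢
        rw [h1]
        congr 1
        funext j
        exact ht2 i j x
      · simp only [t'] at h1
        rw [hu2]
        simp only [if_true] at h1 ⊢
        rw [DT.eval_neg, h1]
        have h2 : (fun j => (t i j).neg.eval x) = fun j => !(u i j x) := by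
          funext j
          rw [DT.eval_neg, ht2]
        rw [h2, gt_neg]
        simp
    refine ⟨(if β then T.neg else T).restr ρ, ?_, ?_⟩
    · refine (DT.restr_depth _ _).trans ?_
      split
      · rw [DT.depth_neg]
        exact hT1
      · exact hT1
    · intro y
      rw [DT.restr_eval]
      exact key _ (comb_ext ρ y)
  | succ r ih =>
    intro ι _ β f hf hcard
    choose u hu1 hu2 using hf
    obtain ⟨ρ, hρ1, hρ2⟩ := ih (ι × Fin S) inferInstance (!β) (fun p => u p.1 p.2)
      (fun p => hu1 p.1 p.2) (by
        rw [Fintype.card_prod, Fintype.card_fin]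
        calc Fintype.card ι * S * S ^ r = Fintype.card ι * S ^ (r + 1) := by ring
          _ < _ := hcard)
    refine ⟨ρ, hρ1, ?_⟩
    intro i
    refine ⟨fun j y => u i j (comb ρ y), ?_, ?_⟩
    · intro j
      exact hρ2 (i, j)
    · intro y
      exact hu2 i _

/-- the number of variables needed -/
def bnd (s : ℕ) : ℕ → ℕ → ℕ
  | 0, q => q + 1
  | 1, q => q + 1
  | r + 2, q => (16 * q + 1) * bnd s (r + 1) (s - 1)

/-- **lower bound for parity** -/
theorem no_flip (S s : ℕ) (hs : 1 ≤ s) : ∀ (r : ℕ) (V : Type) (_ : Fintype V) (_ : DecidableEq V)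
    (q : ℕ) (β : Bool) (f : (V → Bool) → Bool), 1 ≤ r → InAlt S q r β f → Flip f →
    S ^ (r - 1) < 2 ^ s → bnd s r q ≤ Fintype.card V → False := by
  intro r
  induction r with
  | zero => intro V _ _ q β f h; omega
  | succ r ih =>
    intro V _ _ q β f _ hf hfl hS hb
    rcases Nat.eq_zero_or_pos r with rfl | hr
    · -- one level
      obtain ⟨u, hu1, hu2⟩ := hf
      choose t ht1 ht2 using hu1
      simp only [bnd] at hb
      have hne : Nonempty V := by
        rw [← Fintype.card_pos_iff]
        omega
      obtain ⟨v0⟩ := hne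
      -- a point where the gate is determined by one tree
      have hpt : ∃ x, f x = !β := by
        by_cases h : f (fun _ => true) = !β
        · exact ⟨_, h⟩
        · refine ⟨Function.update (fun _ => true) v0 (!true), ?_⟩
          rw [hfl (fun _ => true) v0]
          cases β <;> simpa using h
      obtain ⟨x, hx⟩ := hpt
      have hdet : ∀ y, (∃ i, (t i).eval y = !β) → f y = !β := by
        rintro y ⟨i, hi⟩
        rw [hu2, ]
        rw [ht2] at hi
        cases β
        · rw [Bool.not_false, gt_false]
          exact ⟨i, hi⟩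
        · rw [Bool.not_true, Bool.eq_false_iff]
          intro hc
          have h3 := (gt_true _).1 hc i
          rw [hi] at h3
          simp at h3
      have hex : ∃ i, (t i).eval x = !β := by
        rw [hu2] at hx
        cases β
        · rw [Bool.not_false, gt_false] at hx
          obtain ⟨i, hi⟩ := hx
          exact ⟨i, by rw [ht2]; exact hi⟩
        · rw [Bool.not_true, Bool.eq_false_iff, ne_eq, gt_true] at hx
          push Not at hx
          obtain ⟨i, hi⟩ := hx
          refine ⟨i, ?_⟩
          rw [ht2, Bool.not_true, Bool.eq_false_iff]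
          exact hi
      obtain ⟨i, hi⟩ := hex
      have hlen := (DT.path_length x (t i)).trans (ht1 i)
      have hv : ∃ v, v ∉ ((t i).path x).toFinset := by
        by_contra hcon
        push Not at hcon
        have h1 : (univ : Finset V) ⊆ ((t i).path x).toFinset := fun v _ => hcon v
        have h2 := (Finset.card_le_card h1).trans (List.toFinset_card_le _)
        rw [Finset.card_univ] at h2
        omega
      obtain ⟨v, hv⟩ := hv
      have h1 : (t i).eval (Function.update x v (!x v)) = !β := by
        rw [DT.eval_of_path x _ (t i), hi]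
        intro w hw
        rw [Function.update_of_ne]
        rintro rfl
        exact hv (List.mem_toFinset.2 hw)
      have h2 := hdet _ ⟨i, h1⟩
      rw [hfl, hx] at h2
      cases β <;> simp at h2
    · -- switching
      obtain ⟨r', rfl⟩ := Nat.exists_eq_add_of_le' hr
      have hb' : (16 * q + 1) * bnd s (r' + 1) (s - 1) ≤ Fintype.card V := hb
      obtain ⟨ρ, hρ1, hρ2⟩ := alt_step S q s (bnd s (r' + 1) (s - 1)) hs hb' (r' + 1) Unit
        inferInstance β (fun _ => f) (fun _ => hf) (by simpa using hS)
      have h3 := hρ2 ()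
      refine ih {v // ρ v = none} inferInstance inferInstance (s - 1) β _ (by omega) h3 ?_ ?_ ?_
      · intro y v
        have h4 : comb ρ (Function.update y v (!y v)) =
            Function.update (comb ρ y) v.1 (!(comb ρ y v.1)) := by
          funext w
          by_cases hw : w = v.1
          · subst hw
            simp [comb, v.2]
          · rw [Function.update_of_ne hw]
            unfold comb
            split
            · rename_i h5
              rw [Function.update_of_ne]
              intro h6
              exact hw (congrArg Subtype.val h6)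
            · rfl
        show f (comb ρ (Function.update y v (!y v))) = !f (comb ρ y)
        rw [h4, hfl]
      · rcases Nat.eq_zero_or_pos S with rfl | hSp
        · refine lt_of_le_of_lt (Nat.pow_le_pow_left (Nat.zero_le 1) _) ?_
          rw [one_pow]
          exact Nat.one_lt_two_pow (by omega)
        · exact lt_of_le_of_lt (Nat.pow_le_pow_right hSp (by omega)) hS
      · rw [Fintype.card_subtype]
        rw [mem_RS] at hρ1
        exact le_of_eq hρ1.symm

end Pool.Agent.ParityAC
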