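import Mathlib

/-! The switching lemma (counting proof with decoding). -/

namespace Pool.Agent.ParityAC

/-- decision trees -/
inductive DT (V : Type) : Type
  | leaf (b : Bool)
  | node (v : V) (t0 t1 : DT V)

namespace DT

variable {V : Type}

/-- evaluation -/
def eval (x : V → Bool) : DT V → Bool
  | leaf b => b
  | node v t0 t1 => if x v then t1.eval x else t0.eval x

/-- depth -/
def depth : DT V → ℕ
  | leaf _ => 0
  | node _ t0 t1 => max t0.depth t1.depth + 1

/-- the variables queried on `x` -/
def path (x : V → Bool) : DT V → List V
  | leaf _ => []
  | node v t0 t1 => v :: (if x v then t1.path x else t0.path x)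

/-- negation -/
def neg : DT V → DT V
  | leaf b => leaf (!b)
  | node v t0 t1 => node v t0.neg t1.neg

theorem eval_neg (x : V → Bool) (t : DT V) : t.neg.eval x = !(t.eval x) := by
  induction t with
  | leaf b => rfl
  | node v t0 t1 h0 h1 =>
    simp only [neg, eval, h0, h1]
    split <;> rfl

theorem depth_neg (t : DT V) : t.neg.depth = t.depth := by
  induction t with
  | leaf b => rfl
  | node v t0 t1 h0 h1 => simp only [neg, depth, h0, h1]

theorem path_length (x : V → Bool) (t : DT V) : (t.path x).length ≤ t.depth := by
  induction t with
  | leaf b => simp [path]
  | node v t0 t1 h0 h1 =>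
    simp only [path, depth, List.length_cons]
    split <;> omega

theorem eval_of_path (x y : V → Bool) (t : DT V) (h : ∀ v ∈ t.path x, y v = x v) :
    t.eval y = t.eval x := by
  induction t with
  | leaf b => rfl
  | node v t0 t1 h0 h1 =>
    have hv : y v = x v := h v (by simp [path])
    simp only [eval, hv]
    by_cases hx : x v
    · simp only [hx, if_true]
      apply h1
      intro w hw
      apply h
      simp only [path, hx, if_true, List.mem_cons]
      exact Or.inr hw
    · simp only [hx]
      apply h0
      intro w hw
      apply h
      simp only [path, hx, List.mem_cons]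
      exact Or.inr hw

end DT

variable {V : Type}

/-- restrictions -/
abbrev Rst (V : Type) : Type := V → Option Bool

/-- `x` is compatible with `ρ` -/
def Ext (ρ : Rst V) (x : V → Bool) : Prop := ∀ v b, ρ v = some b → x v = b

/-- `f` has a decision tree of depth at most `d` under `ρ` -/
def Small (f : (V → Bool) → Bool) (ρ : Rst V) (d : ℕ) : Prop :=
  ∃ t : DT V, t.depth ≤ d ∧ ∀ x, Ext ρ x → t.eval x = f x

theorem Small.mono {f : (V → Bool) → Bool} {ρ : Rst V} {d d' : ℕ} (h : Small f ρ d)
    (hd : d ≤ d') : Small f ρ d' := by
  obtain ⟨t, h1, h2⟩ := h
  exact ⟨t, h1.trans hd, h2⟩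

variable [DecidableEq V]

/-- set the variables in `A` according to `π` -/
def setR (ρ : Rst V) (A : List V) (π : V → Bool) : Rst V := fun v => if v ∈ A then some (π v) else ρ v

theorem small_query {f : (V → Bool) → Bool} {d : ℕ} : ∀ (A : List V) (ρ : Rst V),
    (∀ π, Small f (setR ρ A π) d) → Small f ρ (A.length + d) := by
  intro A
  induction A with
  | nil =>
    intro ρ h
    have h1 := h (fun _ => true)
    have h2 : setR ρ [] (fun _ => true) = ρ := by
      funext v
      simp [setR]
    rw [h2] at h1
    exact h1.mono (Nat.le_add_left _ _)
  | cons v A ih =>
    intro ρ h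
    have key : ∀ b : Bool, Small f (fun w => if w = v then some b else ρ w) (A.length + d) := by
      intro b
      apply ih
      intro π
      have h1 := h (fun w => if w ∈ A then π w else b)
      obtain ⟨t, ht1, ht2⟩ := h1
      refine ⟨t, ht1, ?_⟩
      intro x hx
      apply ht2
      intro w c hw
      apply hx w c
      simp only [setR, List.mem_cons] at hw ⊢
      by_cases hA : w ∈ A
      · simpa [hA] using hw
      · by_cases hv : w = v
        · subst hv
          simpa [hA] using hw
        · simpa [hA, hv] using hw
    obtain ⟨t0, h01, h02⟩ := key false
    obtain ⟨t1, h11, h12⟩ := key true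
    refine ⟨DT.node v t0 t1, ?_, ?_⟩
    · simp only [DT.depth, List.length_cons]
      omega
    · intro x hx
      simp only [DT.eval]
      by_cases hxv : x v
      · simp only [hxv, if_true]
        apply h12
        intro w c hw
        by_cases hwv : w = v
        · subst hwv
          simp only [if_true, Option.some.injEq] at hw
          rw [← hw]
          exact hxv
        · simp only [hwv, if_false] at hw
          exact hx w c hw
      · simp only [hxv]
        apply h02
        intro w c hw
        by_cases hwv : w = v
        · subst hwv
          simp only [if_true, Option.some.injEq] at hw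
          rw [← hw]
          simpa using hxv
        · simp only [hwv, if_false] at hw
          exact hx w c hw

/-- terms: the conjunction of `x v = τ v` over the listed variables -/
abbrev Term (V : Type) : Type := List V × (V → Bool)

/-- a term is falsified -/
def fals (ρ : Rst V) (C : Term V) : Bool := C.1.any fun v => ρ v == some (!C.2 v)

omit [DecidableEq V] in
theorem fals_iff {ρ : Rst V} {C : Term V} : fals ρ C = true ↔ ∃ v ∈ C.1, ρ v = some (!C.2 v) := by
  simp [fals]

/-- the value of a DNF -/
def evalD (F : List (Term V)) (x : V → Bool) : Bool := F.any fun C => C.1.all fun v => x v == C.2 v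

omit [DecidableEq V] in
theorem evalD_iff {F : List (Term V)} {x : V → Bool} :
    evalD F x = true ↔ ∃ C ∈ F, ∀ v ∈ C.1, x v = C.2 v := by
  simp [evalD]

/-- the first term that is not falsified -/
def first (F : List (Term V)) (ρ : Rst V) : Option (Term V) := F.find? fun C => !(fals ρ C)

theorem first_none {F : List (Term V)} {ρ : Rst V} (h : first F ρ = none) (x : V → Bool)
    (hx : Ext ρ x) : evalD F x = false := by
  rw [Bool.eq_false_iff]
  intro he
  obtain ⟨C, hC, hv⟩ := evalD_iff.1 he
  have h2 := List.find?_eq_none.1 h C hC
  simp only [Bool.not_eq_true', Bool.not_eq_false] at h2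
  obtain ⟨v, hv1, hv2⟩ := fals_iff.1 h2
  have h3 := hx v _ hv2
  have h4 := hv v hv1
  rw [h3] at h4
  cases hh : C.2 v <;> simp [hh] at h4

/-- decoding -/
def dec (F : List (Term V)) : List (ℕ × Bool × Bool) → Rst V → Rst V → Finset V
  | [], _, _ => ∅
  | (i, b, last) :: L, h, g =>
    match first F h with
    | none => ∅
    | some C =>
      match C.1[i]? with
      | none => ∅
      | some v =>
        insert v (if last then dec F L (Function.update g v (some b)) (Function.update g v (some b))
          else dec F L h (Function.update g v (some b)))

theorem dec_block {F : List (Term V)} {h : Rst V} {C : Term V} (hC : first F h = some C)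
    {k : ℕ} (hk : C.1.length ≤ k) (π : V → Bool) :
    ∀ vs : List V, vs ≠ [] → (∀ v ∈ vs, v ∈ C.1) → ∃ Lb : List (ℕ × Bool × Bool),
      Lb.length = vs.length ∧ (∀ e ∈ Lb, e.1 < k) ∧
      ∀ (L : List (ℕ × Bool × Bool)) (g : Rst V),
        dec F (Lb ++ L) h g = vs.toFinset ∪ dec F L (setR g vs π) (setR g vs π) := by
  intro vs
  induction vs with
  | nil => intro h; exact absurd rfl h
  | cons v vs ih =>
    intro _ hvs
    obtain ⟨i, hi, hiv⟩ := List.getElem_of_mem (hvs v (by simp))
    have hget : C.1[i]? = some v := by rw [List.getElem?_eq_getElem hi, hiv]
    by_cases hnil : vs = []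
    · subst hnil
      refine ⟨[(i, π v, true)], rfl, ?_, ?_⟩
      · intro e he
        rw [List.mem_singleton] at he
        subst he
        show i < k
        omega
      · intro L g
        have hset : setR g [v] π = Function.update g v (some (π v)) := by
          funext w
          by_cases hw : w = v
          · subst hw
            simp [setR]
          · simp [setR, hw]
        rw [hset]
        show dec F ((i, π v, true) :: L) h g = _
        simp only [dec, hC, hget, if_true]
        rw [List.toFinset_cons, List.toFinset_nil, Finset.insert_union, Finset.empty_union]
    · obtain ⟨Lb, h1, h2, h3⟩ := ih hnil (fun w hw => hvs w (by simp [hw]))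
      refine ⟨(i, π v, false) :: Lb, by simp [h1], ?_, ?_⟩
      · intro e he
        rcases List.mem_cons.1 he with rfl | he
        · show i < k
          omega
        · exact h2 e he
      · intro L g
        have hset : setR (Function.update g v (some (π v))) vs π = setR g (v :: vs) π := by
          funext w
          by_cases hw : w = v
          · subst hw
            simp [setR]
          · simp [setR, hw]
        show dec F ((i, π v, false) :: (Lb ++ L)) h g = _
        simp only [dec, hC, hget]
        rw [if_neg (by simp), h3, hset]
        simp [Finset.insert_union]

/-- the encoding exists -/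
theorem enc_exists (F : List (Term V)) (k : ℕ) (hk : ∀ C ∈ F, C.1.length ≤ k) :
    ∀ (s : ℕ) (ρ : Rst V), 1 ≤ s → ¬ Small (evalD F) ρ (s - 1) →
      ∃ (L : List (ℕ × Bool × Bool)) (A : List V) (σ : V → Bool), L.length = s ∧
        (∀ e ∈ L, e.1 < k) ∧ A.Nodup ∧ A.length = s ∧ (∀ v ∈ A, ρ v = none) ∧
        dec F L (setR ρ A σ) (setR ρ A σ) = A.toFinset := by
  intro s
  induction s using Nat.strong_induction_on with
  | _ s ih =>
    intro ρ hs hns
    -- the first term
    cases hfirst : first F ρ with
    | none =>
      exfalso
      apply hns
      refine ⟨DT.leaf false, by simp [DT.depth], ?_⟩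
      intro x hx
      exact (first_none hfirst x hx).symm
    | some C =>
      have hCmem : C ∈ F := List.mem_of_find?_eq_some hfirst
      have hCk := hk C hCmem
      obtain ⟨hCn, as, bs, hF, has⟩ := List.find?_eq_some_iff_append.1 hfirst
      have hCnf : ∀ v ∈ C.1, ρ v ≠ some (!C.2 v) := by
        intro v hv he
        have : fals ρ C = true := fals_iff.2 ⟨v, hv, he⟩
        simp [this] at hCn
      -- first term under extensions
      have hfirst' : ∀ h : Rst V, (∀ v, ρ v ≠ none → h v = ρ v) →
          (∀ v ∈ C.1, h v ≠ some (!C.2 v)) → first F h = some C := by
        intro h h1 h2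
        apply List.find?_eq_some_iff_append.2
        refine ⟨?_, as, bs, hF, ?_⟩
        · simp only [Bool.not_eq_true', Bool.eq_false_iff]
          intro he
          obtain ⟨v, hv1, hv2⟩ := fals_iff.1 he
          exact h2 v hv1 hv2
        · intro D hD
          have h3 := has D hD
          simp only [Bool.not_not] at h3 ⊢
          obtain ⟨v, hv1, hv2⟩ := fals_iff.1 h3
          refine fals_iff.2 ⟨v, hv1, ?_⟩
          rw [h1 v (by rw [hv2]; simp)]
          exact hv2
      -- the free variables of the first term
      set A : List V := (C.1.filter fun v => ρ v == none).dedup with hA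
      have hAnd : A.Nodup := List.nodup_dedup _
      have hAmem : ∀ v, v ∈ A ↔ v ∈ C.1 ∧ ρ v = none := by
        intro v
        simp [hA, List.mem_dedup, List.mem_filter]
      have hAne : A ≠ [] := by
        intro hnil
        apply hns
        refine ⟨DT.leaf true, by simp [DT.depth], ?_⟩
        intro x hx
        symm
        refine evalD_iff.2 ⟨C, hCmem, ?_⟩
        intro v hv
        have h1 : ρ v ≠ none := by
          intro h
          have : v ∈ A := (hAmem v).2 ⟨hv, h⟩
          rw [hnil] at this
          simp at this
        obtain ⟨b, hb⟩ := Option.ne_none_iff_exists'.1 h1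
        have h2 := hx v b hb
        have h3 := hCnf v hv
        rw [hb] at h3
        rw [h2]
        cases b <;> cases hh : C.2 v <;> simp [hh] at h3 ⊢
      by_cases hlen : s ≤ A.length
      · -- truncated block
        set A' := A.take s with hA'
        have hA'len : A'.length = s := by
          rw [hA', List.length_take]
          omega
        have hA'sub : ∀ v ∈ A', v ∈ A := fun v hv => List.mem_of_mem_take hv
        have hA'ne : A' ≠ [] := by
          intro h
          rw [h] at hA'len
          simp at hA'len
          omega
        have hfirstA : first F (setR ρ A' C.2) = some C := by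
          apply hfirst'
          · intro v hv
            have : v ∉ A' := fun h => hv ((hAmem v).1 (hA'sub v h)).2
            simp [setR, this]
          · intro v hv
            by_cases hvA : v ∈ A'
            · simp only [setR, hvA, if_true]
              intro he
              simp at he
            · simp only [setR, hvA, if_false]
              exact hCnf v hv
        obtain ⟨Lb, h1, h2, h3⟩ := dec_block hfirstA hCk (fun _ => true) A' hA'ne
          (fun v hv => ((hAmem v).1 (hA'sub v hv)).1)
        refine ⟨Lb, A', C.2, by rw [h1, hA'len], h2, ?_, hA'len, ?_, ?_⟩
        · exact hAnd.sublist (List.take_sublist _ _)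
        · intro v hv
          exact ((hAmem v).1 (hA'sub v hv)).2
        · have := h3 [] (setR ρ A' C.2)
          rw [List.append_nil] at this
          rw [this]
          simp [dec]
      · -- full block
        push Not at hlen
        have hAlen : 1 ≤ A.length := by
          rcases Nat.eq_zero_or_pos A.length with h | h
          · exact absurd (List.eq_nil_of_length_eq_zero h) hAne
          · exact h
        have hex : ∃ π, ¬ Small (evalD F) (setR ρ A π) (s - A.length - 1) := by
          by_contra hcon
          push Not at hcon
          apply hns
          refine (small_query A ρ hcon).mono ?_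
          omega
        obtain ⟨π, hπ⟩ := hex
        obtain ⟨L, A2, σ, g1, g2, g3, g4, g5, g6⟩ := ih (s - A.length) (by omega) (setR ρ A π)
          (by omega) hπ
        have hdisj : ∀ v ∈ A2, v ∉ A := by
          intro v hv hvA
          have := g5 v hv
          simp [setR, hvA] at this
        have hA2ρ : ∀ v ∈ A2, ρ v = none := by
          intro v hv
          have := g5 v hv
          simpa [setR, hdisj v hv] using this
        let σ' : V → Bool := fun v => if v ∈ A then C.2 v else σ v
        have hfirstA : first F (setR ρ (A ++ A2) σ') = some C := by
          apply hfirst'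
          · intro v hv
            have h1 : v ∉ A := fun h => hv ((hAmem v).1 h).2
            have h2 : v ∉ A2 := fun h => hv (hA2ρ v h)
            simp [setR, h1, h2]
          · intro v hv
            by_cases hvA : v ∈ A
            · have : v ∈ A ++ A2 := by simp [hvA]
              simp only [setR, this, if_true, σ', hvA]
              intro he
              simp at he
            · by_cases hvA2 : v ∈ A2
              · exact absurd ((hAmem v).2 ⟨hv, hA2ρ v hvA2⟩) hvA
              · have : v ∉ A ++ A2 := by simp [hvA, hvA2]
                simp only [setR, this, if_false]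
                exact hCnf v hv
        obtain ⟨Lb, h1, h2, h3⟩ := dec_block hfirstA hCk π A hAne
          (fun v hv => ((hAmem v).1 hv).1)
        refine ⟨Lb ++ L, A ++ A2, σ', ?_, ?_, ?_, ?_, ?_, ?_⟩
        · rw [List.length_append, h1, g1]
          omega
        · intro e he
          rcases List.mem_append.1 he with he | he
          · exact h2 e he
          · exact g2 e he
        · rw [List.nodup_append]
          refine ⟨hAnd, g3, ?_⟩
          intro a ha b hb hab
          subst hab
          exact hdisj a hb ha
        · rw [List.length_append, g4]
          omega
        · intro v hv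
          rcases List.mem_append.1 hv with hv | hv
          · exact ((hAmem v).1 hv).2
          · exact hA2ρ v hv
        · rw [h3]
          have hset : setR (setR ρ (A ++ A2) σ') A π = setR (setR ρ A π) A2 σ := by
            funext v
            by_cases hvA : v ∈ A
            · have : v ∉ A2 := fun h => hdisj v h hvA
              simp [setR, hvA, this]
            · by_cases hvA2 : v ∈ A2
              · simp [setR, hvA, hvA2, σ']
              · simp [setR, hvA, hvA2]
          rw [hset, g6]
          simp [List.toFinset_append]

end Pool.Agent.ParityAC
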