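import Mathlib

/-! Parity as an alternating tree. -/

namespace Pool.Agent.ParityAC

open Finset

variable {B : Type} [Fintype B]

/-- the parity vector of the last step (`g0` at the root) -/
def hd (g0 : B → ZMod 2) : List (B × (B → ZMod 2)) → B → ZMod 2
  | [] => g0
  | p :: _ => p.2

/-- the path -/
def pth (L : List (B × (B → ZMod 2))) : List B := L.map Prod.fst

/-- block parity -/
def bp (w : List B → ZMod 2) : ℕ → List B → ZMod 2
  | 0, P => w P
  | r + 1, P => ∑ j, bp w r (j :: P)

/-- the value of the gate -/
def sem (g0 : B → ZMod 2) (w : List B → ZMod 2) (r : ℕ) (L : List (B × (B → ZMod 2))) : Prop :=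
  if Even L.length then ∀ j, bp w r (j :: pth L) = hd g0 L j
  else ∃ j, bp w r (j :: pth L) ≠ hd g0 L j

omit [Fintype B] in
theorem zmod_ne {a b : ZMod 2} : a ≠ b ↔ a = b + 1 := by
  revert a b
  decide

theorem sem_even {g0 : B → ZMod 2} {w : List B → ZMod 2} {r : ℕ} {L : List (B × (B → ZMod 2))}
    (h : Even L.length) : sem g0 w r L ↔ ∀ j, bp w r (j :: pth L) = hd g0 L j := by
  simp [sem, h]

theorem sem_odd {g0 : B → ZMod 2} {w : List B → ZMod 2} {r : ℕ} {L : List (B × (B → ZMod 2))}
    (h : ¬ Even L.length) : sem g0 w r L ↔ ∃ j, bp w r (j :: pth L) ≠ hd g0 L j := by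
  simp [sem, h]

theorem sem_step_even {g0 : B → ZMod 2} {w : List B → ZMod 2} {r : ℕ}
    {L : List (B × (B → ZMod 2))} (h : Even L.length) :
    sem g0 w (r + 1) L ↔ ∀ (j : B) (h' : B → ZMod 2), ∑ x, h' x = hd g0 L j + 1 →
      sem g0 w r ((j, h') :: L) := by
  have hodd : ∀ (j : B) (h' : B → ZMod 2), ¬ Even ((j, h') :: L).length := by
    intro j h'
    rw [List.length_cons, Nat.even_add_one]
    exact not_not.2 h
  rw [sem_even h]
  constructor
  · intro h1 j h' hs
    rw [sem_odd (hodd j h')]
    by_contra hcon
    push Not at hcon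
    have h2 : bp w (r + 1) (j :: pth L) = ∑ x, h' x :=
      Finset.sum_congr rfl fun x _ => hcon x
    rw [hs, h1 j] at h2
    exact zmod_ne.2 h2 rfl
  · intro h1 j
    by_contra hcon
    have h2 := h1 j (fun x => bp w r (x :: j :: pth L)) (zmod_ne.1 hcon)
    rw [sem_odd (hodd j _)] at h2
    obtain ⟨x, hx⟩ := h2
    exact hx rfl

theorem sem_step_odd {g0 : B → ZMod 2} {w : List B → ZMod 2} {r : ℕ}
    {L : List (B × (B → ZMod 2))} (h : ¬ Even L.length) :
    sem g0 w (r + 1) L ↔ ∃ (j : B) (h' : B → ZMod 2), ∑ x, h' x = hd g0 L j + 1 ∧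
      sem g0 w r ((j, h') :: L) := by
  have hev : ∀ (j : B) (h' : B → ZMod 2), Even ((j, h') :: L).length := by
    intro j h'
    rw [List.length_cons, Nat.even_add_one]
    exact h
  rw [sem_odd h]
  constructor
  · rintro ⟨j, hj⟩
    refine ⟨j, fun x => bp w r (x :: j :: pth L), zmod_ne.1 hj, ?_⟩
    rw [sem_even (hev j _)]
    intro x
    rfl
  · rintro ⟨j, h', hs, h1⟩
    rw [sem_even (hev j h')] at h1
    refine ⟨j, ?_⟩
    rw [zmod_ne, ← hs]
    exact Finset.sum_congr rfl fun x _ => h1 x

theorem bp_add (w w' : List B → ZMod 2) : ∀ (r : ℕ) (P : List B),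
    bp (fun Q => w Q + w' Q) r P = bp w r P + bp w' r P := by
  intro r
  induction r with
  | zero => intro P; rfl
  | succ r ih =>
    intro P
    simp only [bp, ih, Finset.sum_add_distrib]

theorem bp_zero : ∀ (r : ℕ) (P : List B), bp (fun _ => 0) r P = 0 := by
  intro r
  induction r with
  | zero => intro P; rfl
  | succ r ih => intro P; simp [bp, ih]

theorem bp_sum {ι : Type} (s : Finset ι) (w : ι → List B → ZMod 2) (r : ℕ) (P : List B) :
    bp (fun Q => ∑ i ∈ s, w i Q) r P = ∑ i ∈ s, bp (w i) r P := by
  classical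
  induction s using Finset.induction_on with
  | empty => simp [bp_zero]
  | insert a s ha ih =>
    simp only [Finset.sum_insert ha, bp_add, ih]

theorem bp_mul (a : ZMod 2) (w : List B → ZMod 2) : ∀ (r : ℕ) (P : List B),
    bp (fun Q => a * w Q) r P = a * bp w r P := by
  intro r
  induction r with
  | zero => intro P; rfl
  | succ r ih =>
    intro P
    simp only [bp, ih, Finset.mul_sum]

/-- only the values on lists of the right length matter -/
theorem bp_congr {w w' : List B → ZMod 2} {n : ℕ} (h : ∀ P : List B, P.length = n → w P = w' P) :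
    ∀ (r : ℕ) (P : List B), P.length + r = n → bp w r P = bp w' r P := by
  intro r
  induction r with
  | zero => intro P hP; exact h P (by omega)
  | succ r ih =>
    intro P hP
    simp only [bp]
    apply Finset.sum_congr rfl
    intro j _
    apply ih
    simp only [List.length_cons]
    omega

theorem bp_inner (w : List B → ZMod 2) : ∀ (r : ℕ) (P : List B),
    bp w (r + 1) P = bp (fun Q => ∑ j, w (j :: Q)) r P := by
  intro r
  induction r with
  | zero => intro P; rfl
  | succ r ih =>
    intro P
    show ∑ j, bp w (r + 1) (j :: P) = ∑ j, bp (fun Q => ∑ j, w (j :: Q)) r (j :: P)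
    exact Finset.sum_congr rfl fun j _ => ih _

open Classical in
/-- the block parity of a point -/
theorem bp_single [DecidableEq B] (P0 : List B) : ∀ (r : ℕ) (P : List B),
    bp (fun Q => if Q = P0 then 1 else 0) r P =
      if ∃ l : List B, l.length = r ∧ P0 = l ++ P then 1 else 0 := by
  intro r
  induction r with
  | zero =>
    intro P
    simp only [bp]
    by_cases h : P = P0
    · rw [if_pos h, if_pos ⟨[], rfl, h.symm⟩]
    · rw [if_neg h, if_neg]
      rintro ⟨l, hl, h1⟩
      rw [List.length_eq_zero_iff] at hl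
      subst hl
      exact h h1.symm
  | succ r ih =>
    intro P
    simp only [bp, ih]
    by_cases h : ∃ l : List B, l.length = r + 1 ∧ P0 = l ++ P
    · rw [if_pos h]
      obtain ⟨l, hl, h1⟩ := h
      obtain ⟨l', a, rfl⟩ : ∃ l' a, l = l' ++ [a] := by
        rcases List.eq_nil_or_concat l with h | ⟨l', a, h⟩
        · subst h
          simp at hl
        · exact ⟨l', a, by rw [h, List.concat_eq_append]⟩
      rw [List.length_append, List.length_singleton] at hl
      rw [Finset.sum_eq_single a]
      · rw [if_pos]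
        exact ⟨l', by omega, by rw [h1]; simp⟩
      · intro j _ hj
        rw [if_neg]
        rintro ⟨l'', hl'', h2⟩
        apply hj
        rw [h1] at h2
        have h3 : l' ++ (a :: P) = l'' ++ (j :: P) := by
          rw [← h2]
          simp
        have h4 := List.append_inj h3 (by omega)
        simp only [List.cons.injEq] at h4
        exact h4.2.1.symm
      · intro h
        exact absurd (Finset.mem_univ _) h
    · rw [if_neg h]
      apply Finset.sum_eq_zero
      intro j _
      rw [if_neg]
      rintro ⟨l, hl, h1⟩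
      exact h ⟨l ++ [j], by simp [hl], by rw [h1]; simp⟩

end Pool.Agent.ParityAC
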